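import Pool.Agent.H56.EH.Def2

/-!
# Discrete KKM lemma on monotone tuples

Sperner's lemma for Kuhn's triangulation of the simplex `0 ≤ x 0 ≤ … ≤ x (k - 1) ≤ N`. A simplex is a
pair `(x, p)`, `x` its lowest vertex and `p a` the time at which the coordinate `a` is increased; its
vertices are `vx x p i`, `0 ≤ i ≤ k`. The number of simplices with all labels is odd, by induction on
`k`; the doors of the simplices are matched by an involution, except those in the face
`x (k - 1) = N`.
-/

set_option autoImplicit false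

namespace Pool.Agent.H46.EH

open Finset Pool.Agent.H56.EH

/-- the vertices of the simplex `(x, p)` -/
def vx {k : ℕ} (x p : Fin k → ℕ) (i : ℕ) : Fin k → ℕ := fun a => x a + if p a < i then 1 else 0

/-- the simplices -/
structure Sx (k N : ℕ) (x p : Fin k → ℕ) : Prop where
  mono : ∀ a b, a < b → x a ≤ x b
  lt : ∀ a, x a < N
  plt : ∀ a, p a < k
  inj : ∀ a b, p a = p b → a = b
  ord : ∀ a b, a < b → x a = x b → p b < p a

/-- the points of the large simplex -/
def Rg {k : ℕ} (N : ℕ) (y : Fin k → ℕ) : Prop := Monotone y ∧ ∀ i, y i ≤ N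

theorem Sx.rg {k N : ℕ} {x p : Fin k → ℕ} (h : Sx k N x p) (i : ℕ) : Rg N (vx x p i) := by
  refine ⟨fun a b hab => ?_, fun a => ?_⟩
  · rcases eq_or_lt_of_le hab with rfl | hab
    · exact le_refl _
    · have h1 := h.mono a b hab
      have h2 := h.ord a b hab
      unfold vx
      rcases eq_or_lt_of_le h1 with h3 | h3
      · have h4 := h2 h3
        split_ifs <;> omega
      · split_ifs <;> omega
  · have := h.lt a
    unfold vx
    split_ifs <;> omega

theorem Sx.surj {k N : ℕ} {x p : Fin k → ℕ} (h : Sx k N x p) {s : ℕ} (hs : s < k) :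
    ∃ a, p a = s := by
  have h1 : Function.Injective (fun a : Fin k => (⟨p a, h.plt a⟩ : Fin k)) := by
    intro a b hab
    exact h.inj a b (by simpa using hab)
  obtain ⟨a, ha⟩ := Finite.injective_iff_surjective.1 h1 ⟨s, hs⟩
  exact ⟨a, by simpa using ha⟩

/-- a labelling which respects the faces -/
def Good {k : ℕ} (N : ℕ) (lab : (Fin k → ℕ) → Fin (k + 1)) : Prop :=
  ∀ x, Rg N x → gap N x (lab x) ≠ 0

/-! The number of doors. -/

/-- `i` is a door of the labels `f` -/
def Door {n : ℕ} (f : Fin (n + 1) → Fin (n + 1)) (i : Fin (n + 1)) : Prop :=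
  ∀ j, j ≠ Fin.last n → ∃ i', i' ≠ i ∧ f i' = j

open scoped Classical in
theorem door_parity {n : ℕ} (f : Fin (n + 1) → Fin (n + 1)) :
    ((univ.filter fun i => Door f i).card : ZMod 2) = if Function.Surjective f then 1 else 0 := by
  split_ifs with hf
  · have hinj : Function.Injective f := Finite.injective_iff_surjective.2 hf
    obtain ⟨i0, hi0⟩ := hf (Fin.last n)
    have : (univ.filter fun i => Door f i) = {i0} := by
      ext i
      simp only [mem_filter, mem_univ, true_and, mem_singleton]
      constructor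
      · intro h
        by_contra hne
        have h1 : f i ≠ Fin.last n := fun h2 => hne (hinj (h2.trans hi0.symm))
        obtain ⟨i', h3, h4⟩ := h _ h1
        exact h3 (hinj h4)
      · rintro rfl j hj
        obtain ⟨i', hi'⟩ := hf j
        exact ⟨i', fun h => hj (by rw [← hi', h, hi0]), hi'⟩
    rw [this]
    simp
  · by_cases hE : (univ.filter fun i => Door f i) = ∅
    · rw [hE]; simp
    · obtain ⟨i0, hi0⟩ := Finset.nonempty_iff_ne_empty.2 hE
      simp only [mem_filter, mem_univ, true_and] at hi0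
      have hlast : ∀ i, f i ≠ Fin.last n := by
        intro i hi
        apply hf
        intro j
        by_cases hj : j = Fin.last n
        · exact ⟨i, by rw [hi, hj]⟩
        · obtain ⟨i', -, h⟩ := hi0 j hj
          exact ⟨i', h⟩
      have hio : Set.InjOn f ((univ.erase i0 : Finset (Fin (n + 1))) : Set (Fin (n + 1))) := by
        apply Finset.injOn_of_surjOn_of_card_le (t := univ.erase (Fin.last n)) f
        · intro i _
          simp [hlast i]
        · intro j hj
          simp only [coe_erase, coe_univ, Set.mem_diff, Set.mem_univ, Set.mem_singleton_iff,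
            true_and] at hj
          obtain ⟨i', h1, h2⟩ := hi0 j hj
          exact ⟨i', by simpa using h1, h2⟩
        · simp
      obtain ⟨i1, h1, h2⟩ := hi0 (f i0) (hlast i0)
      have : (univ.filter fun i => Door f i) = {i0, i1} := by
        ext i
        simp only [mem_filter, mem_univ, true_and, mem_insert, mem_singleton]
        constructor
        · intro h
          by_contra hne
          rw [not_or] at hne
          obtain ⟨i', h3, h4⟩ := h (f i) (hlast i)
          by_cases h5 : i' = i0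
          · subst h5
            exact hne.2 (hio (by simpa using hne.1) (by simpa using h1) (h4.symm.trans h2.symm))
          · exact h3 (hio (by simpa using h5) (by simpa using hne.1) h4)
        · rintro (rfl | rfl)
          · exact hi0
          · intro j hj
            obtain ⟨i', h3, h4⟩ := hi0 j hj
            by_cases h5 : i' = i
            · subst h5
              exact ⟨i0, fun h => h1 h.symm, h2.symm.trans h4⟩
            · exact ⟨i', h5, h4⟩
      rw [this, card_pair (fun h => h1 h.symm)]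
      decide

theorem Door.of {n : ℕ} {f f' : Fin (n + 1) → Fin (n + 1)} {i i' : Fin (n + 1)} (hd : Door f i)
    (h : ∀ j, j ≠ i → ∃ j', j' ≠ i' ∧ f' j' = f j) : Door f' i' := by
  intro l hl
  obtain ⟨j, h1, h2⟩ := hd l hl
  obtain ⟨j', h3, h4⟩ := h j h1
  exact ⟨j', h3, h4.trans h2⟩

/-! Labels and gaps. -/

theorem Good.lt {k N : ℕ} {lab : (Fin k → ℕ) → Fin (k + 1)} (hg : Good N lab) {y : Fin k → ℕ}
    (hy : Rg N y) {b : Fin k} (hb : lab y = b.castSucc) {a : Fin k} (hab : a < b) : y a < y b := by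
  have h := hg y hy
  rw [hb] at h
  unfold gap at h
  have hb0 : 0 < b.val := lt_of_le_of_lt (Nat.zero_le _) (Fin.lt_def.1 hab)
  simp only [Fin.val_castSucc, b.isLt, dite_true, hb0] at h
  have h1 : y a ≤ y ⟨b.val - 1, by omega⟩ := hy.1 (by
    rw [Fin.le_def]
    have := Fin.lt_def.1 hab
    simp only
    omega)
  have h2 : y ⟨b.val, b.isLt⟩ = y b := rfl
  omega

theorem Good.zero {k N : ℕ} {lab : (Fin k → ℕ) → Fin (k + 1)} (hg : Good N lab) {y : Fin k → ℕ}
    (hy : Rg N y) {b : Fin k} (hb : lab y = b.castSucc) (hb0 : b.val = 0) : y b ≠ 0 := by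
  have h := hg y hy
  rw [hb] at h
  unfold gap at h
  intro h1
  apply h
  have h2 : y ⟨(b.castSucc).val, by simp⟩ = y b := rfl
  rw [dif_pos (show (b.castSucc).val < k by simp), dif_neg (by simp [hb0]), h2, h1]

theorem Good.last {m N : ℕ} {lab : (Fin (m + 1) → ℕ) → Fin (m + 1 + 1)} (hg : Good N lab)
    {y : Fin (m + 1) → ℕ} (hy : Rg N y) (hb : lab y = Fin.last _) : y (Fin.last m) ≠ N := by
  have h := hg y hy
  rw [hb] at h
  unfold gap at h
  simp only [Fin.val_last, lt_irrefl, dite_false, Nat.succ_pos, dite_true] at h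
  intro h1
  apply h
  have h2 : y ⟨m + 1 - 1, by omega⟩ = y (Fin.last m) := congrArg y (Fin.ext (by simp))
  omega

/-! The involution. -/

section inv

variable {m N : ℕ} {x p : Fin (m + 1) → ℕ}

/-- remove the lowest vertex -/
theorem Sx.up (h : Sx (m + 1) N x p) (hb : ¬ (p (Fin.last m) = 0 ∧ x (Fin.last m) + 1 = N)) :
    Sx (m + 1) N (fun a => x a + if p a = 0 then 1 else 0)
      (fun a => if p a = 0 then m else p a - 1) where
  mono := by
    intro a b hab
    have h1 := h.mono a b hab
    have h2 := h.ord a b hab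
    split_ifs <;> omega
  lt := by
    intro a
    have h1 := h.lt a
    have h2 := h.lt (Fin.last m)
    split_ifs with h3
    · by_cases h4 : a = Fin.last m
      · subst h4
        omega
      · have h5 : a < Fin.last m := Fin.lt_last_iff_ne_last.2 h4
        have h6 := h.mono _ _ h5
        have h7 := h.ord _ _ h5
        omega
    · omega
  plt := by
    intro a
    have := h.plt a
    split_ifs <;> omega
  inj := by
    intro a b hab
    have h1 := h.inj a b
    have h2 := h.plt a
    have h3 := h.plt b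
    apply h1
    split_ifs at hab <;> omega
  ord := by
    intro a b hab
    have h1 := h.mono a b hab
    have h2 := h.ord a b hab
    have h3 := h.plt b
    have h4 : p a ≠ p b := fun h5 => hab.ne (h.inj a b h5)
    split_ifs <;> omega

theorem vx_up (x p : Fin (m + 1) → ℕ) (j : ℕ) (hj : j ≤ m) :
    vx (fun a => x a + if p a = 0 then 1 else 0) (fun a => if p a = 0 then m else p a - 1) j =
      vx x p (j + 1) := by
  funext a
  unfold vx
  dsimp only
  split_ifs <;> omega

/-- remove the highest vertex -/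
theorem Sx.down (h : Sx (m + 1) N x p) (hb : ∀ a, p a = m → x a ≠ 0) :
    Sx (m + 1) N (fun a => x a - if p a = m then 1 else 0)
      (fun a => if p a = m then 0 else p a + 1) where
  mono := by
    intro a b hab
    have h1 := h.mono a b hab
    have h2 := h.ord a b hab
    have h3 := h.plt a
    split_ifs <;> omega
  lt := by
    intro a
    have h1 := h.lt a
    split_ifs <;> omega
  plt := by
    intro a
    have := h.plt a
    split_ifs <;> omega
  inj := by
    intro a b hab
    have h1 := h.inj a b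
    have h2 := h.plt a
    have h3 := h.plt b
    apply h1
    split_ifs at hab <;> omega
  ord := by
    intro a b hab
    have h1 := h.mono a b hab
    have h2 := h.ord a b hab
    have h3 := h.plt b
    have h3' := h.plt a
    have h4 : p a ≠ p b := fun h5 => hab.ne (h.inj a b h5)
    have h5 := hb a
    have h6 := hb b
    split_ifs <;> omega

theorem vx_down (x p : Fin (m + 1) → ℕ) (hp : ∀ a, p a < m + 1) (hb : ∀ a, p a = m → x a ≠ 0)
    (j : ℕ) (hj : j ≤ m) :
    vx (fun a => x a - if p a = m then 1 else 0) (fun a => if p a = m then 0 else p a + 1) (j + 1) =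
      vx x p j := by
  funext a
  have h1 := hp a
  have h2 := hb a
  unfold vx
  dsimp only
  split_ifs <;> omega

/-- remove another vertex -/
theorem Sx.mid (h : Sx (m + 1) N x p) {i : ℕ} (hi : 0 < i) (him : i ≤ m)
    (hb : ¬ ∃ a b, a < b ∧ x a = x b ∧ p b + 1 = i ∧ p a = i) :
    Sx (m + 1) N x (fun a => if p a + 1 = i then i else if p a = i then i - 1 else p a) where
  mono := h.mono
  lt := h.lt
  plt := by
    intro a
    have := h.plt a
    split_ifs <;> omega
  inj := by
    intro a b hab
    have h1 := h.inj a b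
    apply h1
    split_ifs at hab <;> omega
  ord := by
    intro a b hab hx
    have h2 := h.ord a b hab hx
    have h3 : ¬ (p b + 1 = i ∧ p a = i) := fun h4 => hb ⟨a, b, hab, hx, h4⟩
    split_ifs <;> omega

theorem vx_mid (x p : Fin (m + 1) → ℕ) {i : ℕ} (j : ℕ) (hj : j ≠ i) :
    vx x (fun a => if p a + 1 = i then i else if p a = i then i - 1 else p a) j = vx x p j := by
  funext a
  unfold vx
  dsimp only
  split_ifs <;> omega

end inv

/-- the labels of the simplex `(x, p)` -/
def lb {k : ℕ} (lab : (Fin k → ℕ) → Fin (k + 1)) (x p : Fin k → ℕ) : Fin (k + 1) → Fin (k + 1) :=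
  fun i => lab (vx x p i)

/-- the involution -/
def T {m : ℕ} (z : ((Fin (m + 1) → ℕ) × (Fin (m + 1) → ℕ)) × Fin (m + 1 + 1)) :
    ((Fin (m + 1) → ℕ) × (Fin (m + 1) → ℕ)) × Fin (m + 1 + 1) :=
  if z.2 = 0 then
    ((fun a => z.1.1 a + if z.1.2 a = 0 then 1 else 0,
      fun a => if z.1.2 a = 0 then m else z.1.2 a - 1), Fin.last _)
  else if z.2 = Fin.last _ then
    ((fun a => z.1.1 a - if z.1.2 a = m then 1 else 0,
      fun a => if z.1.2 a = m then 0 else z.1.2 a + 1), 0)
  else ((z.1.1, fun a => if z.1.2 a + 1 = z.2.val then z.2.val else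
      if z.1.2 a = z.2.val then z.2.val - 1 else z.1.2 a), z.2)

/-- simplices with a door; the doors in the face `x m = N` are excluded -/
structure DX {m : ℕ} (N : ℕ) (lab : (Fin (m + 1) → ℕ) → Fin (m + 1 + 1))
    (z : ((Fin (m + 1) → ℕ) × (Fin (m + 1) → ℕ)) × Fin (m + 1 + 1)) : Prop where
  sx : Sx (m + 1) N z.1.1 z.1.2
  door : Door (lb lab z.1.1 z.1.2) z.2
  notB : ¬ (z.2 = 0 ∧ z.1.2 (Fin.last m) = 0 ∧ z.1.1 (Fin.last m) + 1 = N)

section T

variable {m N : ℕ} {lab : (Fin (m + 1) → ℕ) → Fin (m + 1 + 1)}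
  {z : ((Fin (m + 1) → ℕ) × (Fin (m + 1) → ℕ)) × Fin (m + 1 + 1)}

/-- at the highest vertex -/
theorem DX.down (hg : Good N lab) (h : DX N lab z) (hz : z.2 = Fin.last _) :
    ∀ a, z.1.2 a = m → z.1.1 a ≠ 0 := by
  intro a ha h0
  have ha0 : a.val = 0 := by
    by_contra hne
    have h1 : (0 : Fin (m + 1)) < a := Fin.pos_iff_ne_zero.2 (fun h2 => hne (by rw [h2]; rfl))
    have h2 := h.sx.mono 0 a h1
    have h3 := h.sx.ord 0 a h1 (by omega)
    have h4 := h.sx.plt 0
    omega
  obtain ⟨i', h1, h2⟩ := h.door a.castSucc (Fin.castSucc_lt_last a).ne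
  have h3 := Good.zero hg (h.sx.rg i') h2 ha0
  apply h3
  have h4 : i'.val ≤ m := by
    have h5 : i' ≠ Fin.last _ := fun h6 => h1 (h6.trans hz.symm)
    have h6 := Fin.lt_last_iff_ne_last.2 h5
    have h7 := Fin.lt_def.1 h6
    simp only [Fin.val_last] at h7
    omega
  unfold vx
  rw [if_neg (by omega)]
  omega

/-- at another vertex -/
theorem DX.mid (hg : Good N lab) (h : DX N lab z) (hz : 0 < z.2.val) :
    ¬ ∃ a b, a < b ∧ z.1.1 a = z.1.1 b ∧ z.1.2 b + 1 = z.2.val ∧ z.1.2 a = z.2.val := by
  rintro ⟨a, b, hab, hx, hb, ha⟩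
  obtain ⟨i', h1, h2⟩ := h.door b.castSucc (Fin.castSucc_lt_last b).ne
  have h3 := Good.lt hg (h.sx.rg i') h2 hab
  have h4 : i'.val ≠ z.2.val := fun h5 => h1 (Fin.ext h5)
  unfold vx at h3
  split_ifs at h3 <;> omega

theorem DX.T (hg : Good N lab) (h : DX N lab z) : DX N lab (T z) := by
  unfold EH.T
  split_ifs with h0 h1
  · have hb : ¬ (z.1.2 (Fin.last m) = 0 ∧ z.1.1 (Fin.last m) + 1 = N) := fun hb => h.notB ⟨h0, hb⟩
    refine ⟨h.sx.up hb, ?_, ?_⟩
    · refine Door.of h.door fun j hj => ?_
      obtain ⟨j', rfl⟩ := Fin.exists_succ_eq.2 (fun h2 : j = 0 => hj (h2.trans h0.symm))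
      refine ⟨j'.castSucc, (Fin.castSucc_lt_last j').ne, ?_⟩
      unfold lb
      exact congrArg lab (vx_up z.1.1 z.1.2 j'.val (by omega))
    · rintro ⟨h2, -⟩
      exact absurd h2 (Fin.last_pos.ne')
  · have hb := h.down hg h1
    refine ⟨h.sx.down hb, ?_, ?_⟩
    · refine Door.of h.door fun j hj => ?_
      obtain ⟨j', rfl⟩ := Fin.exists_castSucc_eq.2 (fun h2 : j = Fin.last _ => hj (h2.trans h1.symm))
      refine ⟨j'.succ, Fin.succ_ne_zero _, ?_⟩
      unfold lb
      exact congrArg lab (vx_down z.1.1 z.1.2 h.sx.plt hb j'.val (by omega))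
    · rintro ⟨-, h2, h3⟩
      have h4 := h.sx.lt (Fin.last m)
      have h5 := hb (Fin.last m)
      dsimp only at h2 h3
      split_ifs at h2 h3 with h6
      omega
  · have h2 : 0 < z.2.val := by
      rcases Nat.eq_zero_or_pos z.2.val with h3 | h3
      · exact absurd (Fin.ext h3) h0
      · exact h3
    have h3 : z.2.val ≤ m := by
      have h6 := Fin.lt_last_iff_ne_last.2 h1
      have h7 := Fin.lt_def.1 h6
      simp only [Fin.val_last] at h7
      omega
    refine ⟨h.sx.mid h2 h3 (h.mid hg h2), ?_, ?_⟩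
    · refine Door.of h.door fun j hj => ⟨j, hj, ?_⟩
      unfold lb
      exact congrArg lab (vx_mid z.1.1 z.1.2 j.val (fun h4 => hj (Fin.ext h4)))
    · rintro ⟨h4, -⟩
      exact h0 h4

theorem DX.ne (h : DX N lab z) : EH.T z ≠ z := by
  unfold EH.T
  split_ifs with h0 h1
  · intro h2
    have h3 := congrArg Prod.snd h2
    dsimp only at h3
    rw [h0] at h3
    exact Fin.last_pos.ne' h3
  · intro h2
    have h3 := congrArg Prod.snd h2
    dsimp only at h3
    rw [h1] at h3
    exact Fin.last_pos.ne h3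
  · intro h2
    have h3 := congrArg (fun w => w.1.2) h2
    dsimp only at h3
    have h4 : z.2.val < m + 1 := by
      have h6 := Fin.lt_last_iff_ne_last.2 h1
      have h7 := Fin.lt_def.1 h6
      simpa only [Fin.val_last] using h7
    have h5 : 0 < z.2.val := by
      rcases Nat.eq_zero_or_pos z.2.val with h3 | h3
      · exact absurd (Fin.ext h3) h0
      · exact h3
    obtain ⟨a, ha⟩ := h.sx.surj h4
    have h6 := congrFun h3 a
    split_ifs at h6 <;> omega

theorem T_zero (x p : Fin (m + 1) → ℕ) : EH.T ((x, p), (0 : Fin (m + 1 + 1))) =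
    ((fun a => x a + if p a = 0 then 1 else 0,
      fun a => if p a = 0 then m else p a - 1), Fin.last _) := by
  unfold EH.T
  exact if_pos rfl

theorem T_last (x p : Fin (m + 1) → ℕ) : EH.T ((x, p), Fin.last (m + 1)) =
    ((fun a => x a - if p a = m then 1 else 0,
      fun a => if p a = m then 0 else p a + 1), 0) := by
  unfold EH.T
  exact (if_neg Fin.last_pos.ne').trans (if_pos rfl)

theorem T_mid (x p : Fin (m + 1) → ℕ) {i : Fin (m + 1 + 1)} (h0 : i ≠ 0) (h1 : i ≠ Fin.last _) :
    EH.T ((x, p), i) = ((x, fun a => if p a + 1 = i.val then i.val else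
          if p a = i.val then i.val - 1 else p a), i) := by
  unfold EH.T
  exact (if_neg h0).trans (if_neg h1)

theorem DX.TT (hg : Good N lab) (h : DX N lab z) : EH.T (EH.T z) = z := by
  obtain ⟨⟨x, p⟩, i⟩ := z
  have hp := h.sx.plt
  have hd : i = Fin.last _ → ∀ a, p a = m → x a ≠ 0 := fun h1 => h.down hg h1
  dsimp only at hp
  by_cases h0 : i = 0
  · subst h0
    rw [T_zero, T_last]
    refine Prod.ext (Prod.ext ?_ ?_) rfl
    · funext a
      have := hp a
      by_cases h7 : p a = 0
      · simp [h7]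
      · simp only [if_neg h7]
        split_ifs <;> omega
    · funext a
      have := hp a
      by_cases h7 : p a = 0
      · simp [h7]
      · simp only [if_neg h7]
        split_ifs <;> omega
  · by_cases h1 : i = Fin.last _
    · subst h1
      have hd' := hd rfl
      rw [T_last, T_zero]
      refine Prod.ext (Prod.ext ?_ ?_) rfl
      · funext a
        have := hp a
        have := hd' a
        by_cases h7 : p a = m
        · simp only [if_pos h7]
          split_ifs <;> omega
        · simp [h7]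
      · funext a
        have := hp a
        by_cases h7 : p a = m
        · simp only [if_pos h7]
          split_ifs <;> omega
        · simp [h7]
    · rw [T_mid x p h0 h1, T_mid _ _ h0 h1]
      have h5 : 0 < i.val := by
        rcases Nat.eq_zero_or_pos i.val with h3 | h3
        · exact absurd (Fin.ext h3) h0
        · exact h3
      refine Prod.ext (Prod.ext rfl ?_) rfl
      funext a
      dsimp only
      split_ifs <;> omega

end T

/-- all pairs `(x, p)` with values less than `N`, `k` -/
def amb (k N : ℕ) : Finset ((Fin k → ℕ) × (Fin k → ℕ)) :=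
  (Fintype.piFinset fun _ => range N) ×ˢ (Fintype.piFinset fun _ => range k)

theorem Sx.mem {k N : ℕ} {x p : Fin k → ℕ} (h : Sx k N x p) : (x, p) ∈ amb k N := by
  unfold amb
  rw [mem_product, Fintype.mem_piFinset, Fintype.mem_piFinset]
  exact ⟨fun a => mem_range.2 (h.lt a), fun a => mem_range.2 (h.plt a)⟩

open scoped Classical in
/-- the simplices with all labels -/
noncomputable def full {k : ℕ} (N : ℕ) (lab : (Fin k → ℕ) → Fin (k + 1)) :
    Finset ((Fin k → ℕ) × (Fin k → ℕ)) :=
  (amb k N).filter fun z => Sx k N z.1 z.2 ∧ Function.Surjective (lb lab z.1 z.2)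

open scoped Classical in
/-- the doors in the face `x m = N` -/
noncomputable def bd {m : ℕ} (N : ℕ) (lab : (Fin (m + 1) → ℕ) → Fin (m + 1 + 1)) :
    Finset ((Fin (m + 1) → ℕ) × (Fin (m + 1) → ℕ)) :=
  (amb (m + 1) N).filter fun z => Sx (m + 1) N z.1 z.2 ∧ Door (lb lab z.1 z.2) 0 ∧
    z.2 (Fin.last m) = 0 ∧ z.1 (Fin.last m) + 1 = N

open scoped Classical in
theorem full_eq_bd {m N : ℕ} {lab : (Fin (m + 1) → ℕ) → Fin (m + 1 + 1)} (hg : Good N lab) :
    ((full N lab).card : ZMod 2) = ((bd N lab).card : ZMod 2) := by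
  -- all doors
  set A := (amb (m + 1) N).filter fun z => Sx (m + 1) N z.1 z.2 with hA
  set D := (A ×ˢ (univ : Finset (Fin (m + 1 + 1)))).filter
    fun z => Door (lb lab z.1.1 z.1.2) z.2 with hD
  have h1 : (D.card : ZMod 2) = ((full N lab).card : ZMod 2) := by
    have h2 : D.card = ∑ z ∈ A, (univ.filter fun i => Door (lb lab z.1 z.2) i).card := by
      rw [hD, card_filter, sum_product]
      exact sum_congr rfl fun z _ => (card_filter _ _).symm
    rw [h2, Nat.cast_sum]
    rw [sum_congr rfl fun z _ => door_parity (lb lab z.1 z.2)]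
    rw [← sum_filter, sum_const, nsmul_eq_mul, mul_one]
    congr 2
    unfold full
    rw [hA, filter_filter]
  have h3 : (((D.filter fun z => DX N lab z).card : ℕ) : ZMod 2) = 0 := by
    have h4 : (((D.filter fun z => DX N lab z).card : ℕ) : ZMod 2) =
        ∑ z ∈ D.filter fun z => DX N lab z, (1 : ZMod 2) := by
      rw [sum_const, nsmul_eq_mul, mul_one]
    rw [h4]
    refine sum_involution (fun z _ => T z) ?_ ?_ ?_ ?_
    · intro z _
      decide
    · intro z hz _
      exact (mem_filter.1 hz).2.ne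
    · intro z hz
      have h5 := (mem_filter.1 hz).2.T hg
      refine mem_filter.2 ⟨mem_filter.2 ⟨mem_product.2 ⟨mem_filter.2 ⟨h5.sx.mem, h5.sx⟩,
        mem_univ _⟩, h5.door⟩, h5⟩
    · intro z hz
      exact (mem_filter.1 hz).2.TT hg
  have h6 : D.card = (D.filter fun z => DX N lab z).card +
      (D.filter fun z => ¬ DX N lab z).card := (card_filter_add_card_filter_not _).symm
  have h7 : (D.filter fun z => ¬ DX N lab z).card = (bd N lab).card := by
    refine card_bij' (fun z _ => z.1) (fun z _ => (z, 0)) ?_ ?_ ?_ ?_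
    · intro z hz
      obtain ⟨h8, h9⟩ := mem_filter.1 hz
      obtain ⟨h10, h11⟩ := mem_filter.1 h8
      obtain ⟨h12, h13⟩ := mem_filter.1 (mem_product.1 h10).1
      have h14 : z.2 = 0 ∧ z.1.2 (Fin.last m) = 0 ∧ z.1.1 (Fin.last m) + 1 = N := by
        by_contra h15
        exact h9 ⟨h13, h11, h15⟩
      rw [h14.1] at h11
      exact mem_filter.2 ⟨h12, h13, h11, h14.2⟩
    · intro z hz
      obtain ⟨h8, h9, h10, h11⟩ := mem_filter.1 hz
      refine mem_filter.2 ⟨mem_filter.2 ⟨mem_product.2 ⟨mem_filter.2 ⟨h8, h9⟩, mem_univ _⟩, h10⟩,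
        fun h12 => h12.notB ⟨rfl, h11⟩⟩
    · intro z hz
      obtain ⟨h8, h9⟩ := mem_filter.1 hz
      obtain ⟨h10, h11⟩ := mem_filter.1 h8
      obtain ⟨h12, h13⟩ := mem_filter.1 (mem_product.1 h10).1
      have h14 : z.2 = 0 := by
        by_contra h15
        exact h9 ⟨h13, h11, fun h16 => h15 h16.1⟩
      exact Prod.ext rfl h14.symm
    · intro z hz
      rfl
  rw [← h1, h6, Nat.cast_add, h3, zero_add, h7]

/-! The face `x m = N`. -/

/-- the labelling of the face -/
def face {m : ℕ} (N : ℕ) (lab : (Fin (m + 1) → ℕ) → Fin (m + 1 + 1)) (y : Fin m → ℕ) :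
    Fin (m + 1) :=
  if h : (lab (Fin.snoc (α := fun _ => ℕ) y N)).val < m + 1 then ⟨_, h⟩ else 0

section face

variable {m N : ℕ} {lab : (Fin (m + 1) → ℕ) → Fin (m + 1 + 1)} {x p : Fin (m + 1) → ℕ}

theorem rg_snoc {y : Fin m → ℕ} (hy : Rg N y) : Rg N (Fin.snoc (α := fun _ => ℕ) y N) := by
  have hle : ∀ a, Fin.snoc (α := fun _ => ℕ) y N a ≤ N := by
    intro a
    refine Fin.lastCases ?_ (fun a' => ?_) a
    · rw [Fin.snoc_last]
    · rw [Fin.snoc_castSucc]
      exact hy.2 a'
  refine ⟨fun a b hab => ?_, hle⟩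
  revert hab
  refine Fin.lastCases ?_ (fun b' => ?_) b
  · intro _
    rw [Fin.snoc_last]
    exact hle a
  · refine Fin.lastCases ?_ (fun a' => ?_) a
    · intro h
      exact absurd (Fin.castSucc_lt_last b') (not_lt.2 h)
    · intro h
      rw [Fin.snoc_castSucc, Fin.snoc_castSucc]
      exact hy.1 (Fin.castSucc_le_castSucc_iff.1 h)

theorem gap_snoc (y : Fin m → ℕ) (j : Fin (m + 1)) :
    gap N (Fin.snoc (α := fun _ => ℕ) y N) j.castSucc = gap N y j := by
  unfold gap
  congr 1
  · have hj : j.castSucc.val < m + 1 := by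
      simp only [Fin.val_castSucc]
      exact j.isLt
    rw [dif_pos hj]
    by_cases h : j.val < m
    · rw [dif_pos h]
      exact Fin.snoc_castSucc (α := fun _ => ℕ) N y ⟨j.val, h⟩
    · rw [dif_neg h]
      have h1 : (⟨j.castSucc.val, hj⟩ : Fin (m + 1)) = Fin.last m := by
        apply Fin.ext
        simp only [Fin.val_castSucc, Fin.val_last]
        omega
      rw [h1]
      exact Fin.snoc_last (α := fun _ => ℕ) N y
  · by_cases h : 0 < j.val
    · rw [dif_pos h, dif_pos (by simpa using h)]
      exact Fin.snoc_castSucc (α := fun _ => ℕ) N y ⟨j.val - 1, by omega⟩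
    · rw [dif_neg h, dif_neg (by simpa using h)]

theorem face_castSucc (hg : Good N lab) {y : Fin m → ℕ} (hy : Rg N y) :
    (face N lab y).castSucc = lab (Fin.snoc (α := fun _ => ℕ) y N) := by
  have h1 : lab (Fin.snoc (α := fun _ => ℕ) y N) ≠ Fin.last _ := fun h2 =>
    hg.last (rg_snoc hy) h2 (Fin.snoc_last (α := fun _ => ℕ) N y)
  have h2 := Fin.lt_def.1 (Fin.lt_last_iff_ne_last.2 h1)
  unfold face
  rw [dif_pos (by simpa only [Fin.val_last] using h2)]
  rfl

theorem Good.face (hg : Good N lab) : Good N (EH.face N lab) := by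
  intro y hy
  rw [← gap_snoc, face_castSucc hg hy]
  exact hg _ (rg_snoc hy)

theorem Sx.pos (h : Sx (m + 1) N x p) (h0 : p (Fin.last m) = 0) (a : Fin m) :
    0 < p a.castSucc := by
  rcases Nat.eq_zero_or_pos (p a.castSucc) with h1 | h1
  · exact absurd (h.inj _ _ (h1.trans h0.symm)) (Fin.castSucc_lt_last a).ne
  · exact h1

theorem Sx.face (h : Sx (m + 1) N x p) (h0 : p (Fin.last m) = 0) :
    Sx m N (fun a => x a.castSucc) (fun a => p a.castSucc - 1) where
  mono a b hab := h.mono _ _ (Fin.castSucc_lt_castSucc_iff.2 hab)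
  lt a := h.lt _
  plt a := by
    have h1 := h.plt a.castSucc
    have h2 := h.pos h0 a
    omega
  inj a b hab := by
    have h2 := h.pos h0 a
    have h3 := h.pos h0 b
    exact Fin.castSucc_injective _ (h.inj _ _ (by omega))
  ord a b hab hx := by
    have h1 := h.ord _ _ (Fin.castSucc_lt_castSucc_iff.2 hab) hx
    have h2 := h.pos h0 a
    have h3 := h.pos h0 b
    omega

theorem Sx.snoc {x p : Fin m → ℕ} (h : Sx m N x p) (hN : 0 < N) :
    Sx (m + 1) N (Fin.snoc (α := fun _ => ℕ) x (N - 1))
      (Fin.snoc (α := fun _ => ℕ) (fun a => p a + 1) 0) where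
  mono := by
    intro a b
    refine Fin.lastCases ?_ (fun b' => ?_) b
    · refine Fin.lastCases (fun h1 => absurd h1 (lt_irrefl _)) (fun a' _ => ?_) a
      rw [Fin.snoc_last, Fin.snoc_castSucc]
      have := h.lt a'
      omega
    · refine Fin.lastCases (fun h1 => absurd h1 (not_lt.2 (Fin.castSucc_lt_last b').le))
        (fun a' h1 => ?_) a
      rw [Fin.snoc_castSucc, Fin.snoc_castSucc]
      exact h.mono _ _ (Fin.castSucc_lt_castSucc_iff.1 h1)
  lt := by
    intro a
    refine Fin.lastCases ?_ (fun a' => ?_) a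
    · rw [Fin.snoc_last]
      omega
    · rw [Fin.snoc_castSucc]
      exact h.lt a'
  plt := by
    intro a
    refine Fin.lastCases ?_ (fun a' => ?_) a
    · rw [Fin.snoc_last]
      omega
    · rw [Fin.snoc_castSucc]
      have := h.plt a'
      omega
  inj := by
    intro a b
    refine Fin.lastCases ?_ (fun b' => ?_) b
    · refine Fin.lastCases (fun _ => rfl) (fun a' h1 => ?_) a
      rw [Fin.snoc_last, Fin.snoc_castSucc] at h1
      omega
    · refine Fin.lastCases (fun h1 => ?_) (fun a' h1 => ?_) a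
      · rw [Fin.snoc_last, Fin.snoc_castSucc] at h1
        omega
      · rw [Fin.snoc_castSucc, Fin.snoc_castSucc] at h1
        rw [h.inj a' b' (by omega)]
  ord := by
    intro a b
    refine Fin.lastCases ?_ (fun b' => ?_) b
    · refine Fin.lastCases (fun h1 => absurd h1 (lt_irrefl _)) (fun a' _ _ => ?_) a
      rw [Fin.snoc_last, Fin.snoc_castSucc]
      omega
    · refine Fin.lastCases (fun h1 => absurd h1 (not_lt.2 (Fin.castSucc_lt_last b').le))
        (fun a' h1 h2 => ?_) a
      rw [Fin.snoc_castSucc, Fin.snoc_castSucc] at h2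
      rw [Fin.snoc_castSucc, Fin.snoc_castSucc]
      have := h.ord _ _ (Fin.castSucc_lt_castSucc_iff.1 h1) h2
      omega

theorem vx_face (h : Sx (m + 1) N x p) (h0 : p (Fin.last m) = 0) (h1 : x (Fin.last m) + 1 = N)
    (j : ℕ) : vx x p (j + 1) = Fin.snoc (α := fun _ => ℕ)
      (vx (fun a => x a.castSucc) (fun a => p a.castSucc - 1) j) N := by
  funext a
  refine Fin.lastCases ?_ (fun a' => ?_) a
  · rw [Fin.snoc_last]
    unfold vx
    rw [h0, if_pos (Nat.succ_pos j), h1]
  · rw [Fin.snoc_castSucc]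
    have h2 := h.pos h0 a'
    unfold vx
    dsimp only
    split_ifs <;> omega

theorem lb_face (hg : Good N lab) (h : Sx (m + 1) N x p) (h0 : p (Fin.last m) = 0)
    (h1 : x (Fin.last m) + 1 = N) (j : Fin (m + 1)) : lb lab x p j.succ =
      (lb (EH.face N lab) (fun a => x a.castSucc) (fun a => p a.castSucc - 1) j).castSucc := by
  unfold lb
  rw [face_castSucc hg ((h.face h0).rg j), ← vx_face h h0 h1, Fin.val_succ]

theorem door_iff (hg : Good N lab) (h : Sx (m + 1) N x p) (h0 : p (Fin.last m) = 0)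
    (h1 : x (Fin.last m) + 1 = N) : Door (lb lab x p) 0 ↔ Function.Surjective
      (lb (EH.face N lab) (fun a => x a.castSucc) (fun a => p a.castSucc - 1)) := by
  constructor
  · intro hd l
    obtain ⟨i', h2, h3⟩ := hd l.castSucc (Fin.castSucc_lt_last l).ne
    obtain ⟨j, rfl⟩ := Fin.exists_succ_eq.2 h2
    rw [lb_face hg h h0 h1] at h3
    exact ⟨j, Fin.castSucc_injective _ h3⟩
  · intro hs l hl
    obtain ⟨l', rfl⟩ := Fin.exists_castSucc_eq.2 hl
    obtain ⟨j, hj⟩ := hs l'
    exact ⟨j.succ, Fin.succ_ne_zero _, by rw [lb_face hg h h0 h1, hj]⟩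

theorem bd_card (hg : Good N lab) (hN : 0 < N) :
    (bd N lab).card = (full N (EH.face N lab)).card := by
  classical
  have key : ∀ x p : Fin m → ℕ,
      ((fun a : Fin m => Fin.snoc (α := fun _ => ℕ) x (N - 1) a.castSucc) = x) ∧
      ((fun a : Fin m => Fin.snoc (α := fun _ => ℕ) (fun a => p a + 1) 0 a.castSucc - 1) = p) := by
    intro x p
    constructor
    · funext a
      rw [Fin.snoc_castSucc]
    · funext a
      rw [Fin.snoc_castSucc]
      rfl
  refine card_bij' (fun z _ => (fun a => z.1 a.castSucc, fun a => z.2 a.castSucc - 1))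
    (fun z _ => (Fin.snoc (α := fun _ => ℕ) z.1 (N - 1),
      Fin.snoc (α := fun _ => ℕ) (fun a => z.2 a + 1) 0)) ?_ ?_ ?_ ?_
  · intro z hz
    obtain ⟨-, h1, h2, h3, h4⟩ := mem_filter.1 hz
    exact mem_filter.2 ⟨(h1.face h3).mem, h1.face h3, (door_iff hg h1 h3 h4).1 h2⟩
  · intro z hz
    obtain ⟨-, h1, h2⟩ := mem_filter.1 hz
    have h3 := h1.snoc hN
    have h4 : Fin.snoc (α := fun _ => ℕ) (fun a => z.2 a + 1) 0 (Fin.last m) = 0 :=
      Fin.snoc_last (α := fun _ => ℕ) _ _
    have h5 : Fin.snoc (α := fun _ => ℕ) z.1 (N - 1) (Fin.last m) + 1 = N := by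
      rw [Fin.snoc_last]
      omega
    refine mem_filter.2 ⟨h3.mem, h3, (door_iff hg h3 h4 h5).2 ?_, h4, h5⟩
    rw [(key z.1 z.2).1, (key z.1 z.2).2]
    exact h2
  · intro z hz
    obtain ⟨-, h1, h2, h3, h4⟩ := mem_filter.1 hz
    refine Prod.ext ?_ ?_
    · funext a
      refine Fin.lastCases ?_ (fun a' => ?_) a
      · simp only [Fin.snoc_last]
        omega
      · simp only [Fin.snoc_castSucc]
    · funext a
      refine Fin.lastCases ?_ (fun a' => ?_) a
      · simp only [Fin.snoc_last]
        omega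
      · simp only [Fin.snoc_castSucc]
        have := h1.pos h3 a'
        omega
  · intro z hz
    exact Prod.ext (key z.1 z.2).1 (key z.1 z.2).2

end face

/-- a good labelling exists only for a positive number of steps -/
theorem Good.pos {k N : ℕ} {lab : (Fin k → ℕ) → Fin (k + 1)} (hg : Good N lab) : 0 < N := by
  rcases Nat.eq_zero_or_pos N with rfl | h
  · exfalso
    have h1 := hg (fun _ => 0) ⟨fun a b _ => le_refl _, fun _ => le_refl _⟩
    apply h1
    unfold gap
    simp
  · exact h

/-- SPERNER's lemma: the number of simplices with all labels is odd. -/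
theorem full_odd (k N : ℕ) (lab : (Fin k → ℕ) → Fin (k + 1)) (hg : Good N lab) :
    ((full N lab).card : ZMod 2) = 1 := by
  induction k with
  | zero =>
    classical
    have h1 : full N lab = amb 0 N := by
      unfold full
      refine filter_true_of_mem fun z _ => ⟨⟨fun a => a.elim0, fun a => a.elim0,
        fun a => a.elim0, fun a => a.elim0, fun a => a.elim0⟩, fun j => ⟨0, Subsingleton.elim (α := Fin 1) _ _⟩⟩
    rw [h1]
    unfold amb
    simp
  | succ m ih => rw [full_eq_bd hg, bd_card hg hg.pos, ih _ hg.face]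

/-- DISCRETE KKM LEMMA. -/
theorem kkm (k N : ℕ) (lab : (Fin k → ℕ) → Fin (k + 1))
    (hlab : ∀ x, Monotone x → (∀ i, x i ≤ N) → gap N x (lab x) ≠ 0) :
    ∃ x, Monotone x ∧ (∀ i, x i ≤ N) ∧ ∀ j : Fin (k + 1), ∃ y, Monotone y ∧ (∀ i, y i ≤ N) ∧
      (∀ i, x i ≤ y i ∧ y i ≤ x i + 1) ∧ lab y = j := by
  classical
  have hg : Good N lab := fun x hx => hlab x hx.1 hx.2
  have h1 := full_odd k N lab hg
  have h2 : (full N lab).Nonempty := by
    rw [nonempty_iff_ne_empty]
    intro h3
    rw [h3] at h1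
    simp at h1
  obtain ⟨z, hz⟩ := h2
  obtain ⟨-, h3, h4⟩ := mem_filter.1 hz
  have h5 := h3.rg 0
  have h6 : vx z.1 z.2 0 = z.1 := by
    funext a
    unfold vx
    simp
  rw [h6] at h5
  refine ⟨z.1, h5.1, h5.2, fun j => ?_⟩
  obtain ⟨i, hi⟩ := h4 j
  refine ⟨vx z.1 z.2 i, (h3.rg i).1, (h3.rg i).2, fun a => ?_, hi⟩
  unfold vx
  split_ifs <;> omega

end Pool.Agent.H46.EH
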